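import Pool.Agent.H880R2.BigMCG.Plane

/-!
# MP_ac6992_gt, Q1: the dichotomy fails

`Map(ℝ² - C)` has a non-amenable subgroup `H` with `Q̃(H) = 0`.

The definitions (`S`, `HomeoPlus`, `Homeo0`, `MapS`, `IsAmenable`, `Q`, `HomSub`, `Qtilde`) are in
`Pool.Agent.H880R2.BigMCG.Defs`.  The subgroup `H` is isomorphic to a quotient of
`W = N ⋊ ℤ`, where `N` is an infinite product of copies of the group of order automorphisms of a
Cantor set and `ℤ` acts by the shift; every element of `N` is a commutator `[a, shift]`, and `N`
contains a copy of a group acting on the circle like Thompson's group `T`.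
-/

namespace Pool.Agent.Results.MP_ac6992_gt.NonamenableNoQuasi

open Pool.Agent.H880R2.BigMCG

/-- The homomorphism `W → Map(S)`. -/
noncomputable def rho : W →* MapS := toMap.comp (cAut.comp wIncl)

lemma toMap_eq_one {e : AutOf cantorSet} (h : toMap e = 1) :
    ∀ c ∈ cantorSet, (e : Equiv.Perm ℝ) c = c := by
  have h1 : toHomeoPlus e ∈ Homeo0Plus := (QuotientGroup.eq_one_iff _).mp h
  have h1 := Subgroup.mem_subgroupOf.mp h1
  exact trivial_on_cantor e h1

/-- There is a non-amenable subgroup `H` of `Map(ℝ² - C)` for which `Q̃(H)` is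
finite-dimensional; in fact `Q̃(H) = 0`. -/
theorem result : ∃ H : Subgroup MapS, ¬ IsAmenable H ∧
    Module.Finite ℝ (Qtilde H) ∧ Module.finrank ℝ (Qtilde H) = 0 := by
  refine ⟨rho.range, ?_, ?_⟩
  · refine not_amenable (rho.rangeRestrict.comp dHom) (fun e he => ?_)
    refine trivial_of_trivial e (toMap_eq_one ?_)
    have := congrArg Subtype.val he
    exact this
  · have htop : HomSub rho.range = ⊤ :=
      homSub_eq_top_of_surjective rho.rangeRestrict rho.rangeRestrict_surjective W_hom
    have hsub : Subsingleton (Qtilde rho.range) :=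
      Submodule.Quotient.subsingleton_iff.mpr htop
    exact ⟨inferInstance, Module.finrank_zero_of_subsingleton⟩

end Pool.Agent.Results.MP_ac6992_gt.NonamenableNoQuasi
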